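import Pool.Agent.Helper24.MM.ChainBound

set_option autoImplicit false

/-!
# The choice of the parameters
-/

namespace Pool.Agent.Helper24.MM

open Finset

theorem pick' {K : ℕ} (hK : 0 < K) {η c : ℝ} (hη : 0 < η) (hc : 0 < c) :
    ∃ m₀ : ℕ, ∀ m : ℕ, m₀ ≤ m → ∃ i : ℕ, 1 ≤ i ∧ K * (4 * i + 3) ≤ m ∧
      c * (m : ℝ) ^ 2 ≤ (1 + η) ^ i := by
  have hKr : (0 : ℝ) < K := by exact_mod_cast hK
  have h1 := tendsto_pow_const_div_const_pow_of_one_lt 2 (show (1 : ℝ) < 1 + η by linarith)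
  have h2 : ∀ᶠ n : ℕ in Filter.atTop, (n : ℝ) ^ 2 / (1 + η) ^ n < 1 / (256 * c * (K : ℝ) ^ 2) :=
    h1.eventually_lt_const (by positivity)
  obtain ⟨I₀, hI₀⟩ := Filter.eventually_atTop.1 h2
  refine ⟨8 * K * (I₀ + 1) + 6 * K, fun m hm => ?_⟩
  have hdm := Nat.div_add_mod m (8 * K)
  have hmod := Nat.mod_lt m (show 0 < 8 * K by omega)
  set i := m / (8 * K) with hi
  have hiI : I₀ + 1 ≤ i := by
    rw [hi, Nat.le_div_iff_mul_le (by omega)]
    nlinarith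
  refine ⟨i, by omega, ?_, ?_⟩
  · have h6 : 6 * K ≤ m := le_trans (Nat.le_add_left _ _) hm
    have h8 : 8 * K * i ≤ m := Nat.mul_div_le _ _
    nlinarith
  · have h3 := hI₀ i (by omega)
    have hi1 : (1 : ℝ) ≤ i := by exact_mod_cast (show 1 ≤ i by omega)
    have h4 : (m : ℝ) ≤ 8 * K * (i + 1) := by
      have : m ≤ 8 * K * (i + 1) := by nlinarith
      exact_mod_cast this
    have h5 : (m : ℝ) ≤ 16 * K * i := by nlinarith
    have hm0 : (0 : ℝ) ≤ m := by positivity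
    have h6 : (m : ℝ) ^ 2 ≤ (16 * K * i) ^ 2 := pow_le_pow_left₀ hm0 h5 2
    have h7 : (256 * c * (K : ℝ) ^ 2) * (i : ℝ) ^ 2 ≤ (1 + η) ^ i := by
      rw [div_lt_div_iff₀ (by positivity) (by positivity)] at h3
      nlinarith
    have h8 := mul_le_mul_of_nonneg_left h6 hc.le
    nlinarith

universe u v w

/-- Let a set of linear forms in `|V|` variables be reached with `n` additions and let it contain
a family of forms, of which at least `m / 2` are `≠ 0` at every point `X ≠ 0`. If the three numbers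
are `O(m ^ 2)` then `n ≥ 3 |V| - o(m ^ 2)`. -/
theorem Built.asymp {δ K : ℝ} (hδ : 0 < δ) (hK : 0 < K) : ∃ m₀ : ℕ, ∀ m : ℕ, m₀ ≤ m →
    ∀ (F : Type u) [Field F] (V : Type v) [DecidableEq V] [Fintype V] (n : ℕ)
      (S : Set (V → F)) (_ : Built n S) (L : Type w) [Fintype L] (req : L → V → F)
      (_ : ∀ l, req l ∈ S)
      (_ : ∀ X : V → F, X ≠ 0 →
        ∃ Q : Finset L, m ≤ 2 * Q.card ∧ ∀ l ∈ Q, dotProduct (req l) X ≠ 0),
      (n : ℝ) ≤ K * (m : ℝ) ^ 2 → (Fintype.card V : ℝ) ≤ K * (m : ℝ) ^ 2 →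
      (Fintype.card L : ℝ) ≤ K * (m : ℝ) ^ 2 →
      3 * (Fintype.card V : ℝ) - δ * (m : ℝ) ^ 2 ≤ n := by
  set η : ℝ := δ / (3 * K) with hηdef
  have hη : 0 < η := by positivity
  obtain ⟨Δ, hΔ⟩ := exists_nat_gt (36 * K / δ)
  have hΔ0 : 0 < Δ := by
    have : (0 : ℝ) < Δ := lt_trans (by positivity) hΔ
    exact_mod_cast this
  obtain ⟨r, hr⟩ := pow_unbounded_of_one_lt (9 * K / δ) (show (1 : ℝ) < 2 by norm_num)
  obtain ⟨m₀, hm₀⟩ := pick' (K := 2 * (Δ * (1 + Δ) ^ r)) (by positivity) hη hK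
  refine ⟨m₀, fun m hm F _ V _ _ n S hB L _ req hreq hW hn hV hL => ?_⟩
  obtain ⟨i, hi, hT, hp⟩ := hm₀ m hm
  have hT' : Δ * ((1 + Δ) ^ r * (4 * i + 3)) ≤ (m + 1) / 2 := by
    have : 2 * (Δ * ((1 + Δ) ^ r * (4 * i + 3))) ≤ m := by
      refine le_trans (le_of_eq ?_) hT
      ring
    omega
  have h1 := hB.bound req hreq (W := (m + 1) / 2) (fun X hX => by
    obtain ⟨Q, hQ, hQ'⟩ := hW X hX
    exact ⟨Q, by omega, hQ'⟩) hη hΔ0 hi (hn.trans hp) hT'
  set M : ℝ := (m : ℝ) ^ 2 with hM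
  have hM0 : 0 ≤ M := by positivity
  set v : ℝ := (Fintype.card V : ℝ) with hv
  set l : ℝ := (Fintype.card L : ℝ) with hl
  have hn0 : (0 : ℝ) ≤ n := by positivity
  have h2 : (3 * (n : ℝ) + l) / (Δ + 1) ≤ δ / 9 * M := by
    rw [div_le_iff₀ (by positivity)]
    have h3 : 36 * K < δ * Δ := by
      rw [div_lt_iff₀ hδ] at hΔ
      linarith
    have h4 : (36 * K) * M ≤ (δ * Δ) * M := mul_le_mul_of_nonneg_right h3.le hM0
    have h5 : 0 ≤ δ * M := by positivity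
    nlinarith
  set Y : ℝ := 3 * (v - (3 * n + l) / (Δ + 1)) - (1 + η) * n with hY
  have h3 : Y ≤ δ / 3 * M := by
    by_cases hY0 : Y ≤ 0
    · exact hY0.trans (by positivity)
    · push Not at hY0
      have h4 : (9 * K / δ) * Y ≤ 2 ^ r * Y := mul_le_mul_of_nonneg_right hr.le hY0.le
      have h5 : (9 * K / δ) * Y ≤ 3 * (K * M) := by linarith
      have h6 : (δ / (9 * K)) * ((9 * K / δ) * Y) = Y := by
        field_simp
      have h7 := mul_le_mul_of_nonneg_left h5 (show 0 ≤ δ / (9 * K) by positivity)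
      rw [h6] at h7
      refine h7.trans (le_of_eq ?_)
      field_simp
      ring
  have h4 : η * n ≤ δ / 3 * M := by
    have h5 := mul_le_mul_of_nonneg_left hn hη.le
    refine h5.trans (le_of_eq ?_)
    rw [hηdef]
    field_simp
  have h5 : Y = 3 * v - 3 * ((3 * n + l) / (Δ + 1)) - n - η * n := by
    rw [hY]
    ring
  nlinarith

end Pool.Agent.Helper24.MM
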