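import Pool.Agent.Helper24.MM.Forward

set_option autoImplicit false

/-!
# The quadratic parts in a circuit give a chain in the transposed direction
-/

namespace Pool.Agent.Helper24.MM

open Finset Pool.Agent.H88R3.MM Pool.Agent.H522R2 Pool.Agent.H522R2.Circuit Pool.Agent.W946.Kos
open Pool.Agent.W946.Sz

section basic

variable {F V : Type*} [Field F]

open Classical in
/-- the product at a node, a symmetric form -/
noncomputable def bil (C : Circuit F V) (v : Fin C.nodes) : V → V → F :=
  if C.IsNonscalar v then fun x y => lin C (inp C v).1 x * lin C (inp C v).2 y +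
    lin C (inp C v).1 y * lin C (inp C v).2 x else 0

/-- the node is a nonscalar multiplication and computes a homogeneous polynomial -/
def HNS (C : Circuit F V) (v : Fin C.nodes) : Prop :=
  C.IsNonscalar v ∧ ∃ k, (C.poly v).IsHomogeneous k

open Classical in
/-- bound for the number of quadratic inputs of a node -/
noncomputable def ee (C : Circuit F V) (v : Fin C.nodes) : ℤ :=
  (if HNS C v then 0 else 1) + (if HNS C v ∨ ¬ Costly C v then 0 else 1)

theorem qd_gate {C : Circuit F V} {v : Fin C.nodes} (h : IsGate C v) :
    ∃ i j : Fin C.nodes, i < v ∧ j < v ∧ ∃ a b : F,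
      qd C v = a • qd C i + b • qd C j + bil C v ∧ (HNS C v → a = 0) ∧
        (HNS C v ∨ ¬ Costly C v → b = 0) := by
  rcases h with ⟨i, j, h⟩ | ⟨i, j, h⟩
  · have hns : ¬ C.IsNonscalar v := by
      rintro ⟨i', j', h', _⟩
      rw [h] at h'
      simp at h'
    refine ⟨C.up v i, C.up v j, up_lt v i, up_lt v j, 1, 1, ?_, fun h' => absurd h'.1 hns,
      fun h' => ?_⟩
    · funext x y
      simp only [qd, bil, if_neg hns, poly_add h, D2_add, Pi.add_apply, one_smul, Pi.zero_apply,
        add_zero]
    · rcases h' with h' | h'
      · exact absurd h'.1 hns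
      · exact absurd (Or.inl ⟨i, j, h⟩) h'
  · by_cases hns : C.IsNonscalar v
    · have hin : inp C v = (C.up v i, C.up v j) := by
        unfold inp
        rw [h]
      have key : HNS C v → MvPolynomial.constantCoeff (C.poly (C.up v i)) = 0 ∧
          MvPolynomial.constantCoeff (C.poly (C.up v j)) = 0 := by
        rintro ⟨_, k, hk⟩
        obtain ⟨i', j', h', h1, h2⟩ := hns
        rw [h] at h'
        simp only [Gate.mul.injEq] at h'
        obtain ⟨rfl, rfl⟩ := h'
        rw [poly_mul h] at hk
        constructor
        · by_contra h3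
          refine h1 _ (eq_C_of_homogeneous hk ?_ h3)
          intro h4
          refine h2 0 ?_
          rw [h4, map_zero]
        · by_contra h3
          rw [mul_comm] at hk
          refine h2 _ (eq_C_of_homogeneous hk ?_ h3)
          intro h4
          refine h1 0 ?_
          rw [h4, map_zero]
      refine ⟨C.up v j, C.up v i, up_lt v j, up_lt v i,
        MvPolynomial.constantCoeff (C.poly (C.up v i)),
        MvPolynomial.constantCoeff (C.poly (C.up v j)), ?_, fun h' => (key h').1, fun h' => ?_⟩
      · funext x y
        simp only [qd, bil, if_pos hns, poly_mul h, D2_mul, Pi.add_apply, Pi.smul_apply,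
          smul_eq_mul, hin, lin]
      · rcases h' with h' | h'
        · exact (key h').2
        · exact absurd (Or.inr hns) h'
    · obtain ⟨k, c, hk, hp⟩ := scalar_gate h hns
      refine ⟨k, k, hk, hk, c, 0, ?_, fun h' => absurd h'.1 hns, fun _ => rfl⟩
      funext x y
      simp only [qd, bil, if_neg hns, hp, D2_mul, D1_C, D2_C, MvPolynomial.constantCoeff_C,
        Pi.add_apply, Pi.smul_apply, smul_eq_mul, Pi.zero_apply]
      ring

theorem qd_not_gate {C : Circuit F V} {v : Fin C.nodes} (h : ¬ IsGate C v) : qd C v = 0 := by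
  cases hg : C.gate v with
  | var z =>
    funext x y
    simp only [qd, poly_var hg, D2_X, Pi.zero_apply]
  | const c =>
    funext x y
    simp only [qd, poly_const hg, D2_C, Pi.zero_apply]
  | add i j => exact absurd (Or.inl ⟨i, j, hg⟩) h
  | mul i j => exact absurd (Or.inr ⟨i, j, hg⟩) h

end basic

section sums

variable {F Y : Type*} [Field F]

theorem SumOf.finset {S : Set (Y → F)} {ι : Type*} (s : Finset ι) (g : ι → Y → F)
    (hg : ∀ x ∈ s, g x ∈ S) : SumOf S s.card (∑ x ∈ s, g x) := by
  classical
  induction s using Finset.induction_on with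
  | empty =>
    rw [card_empty, sum_empty]
    exact SumOf.zero
  | insert a s ha ih =>
    rw [card_insert_of_notMem ha, sum_insert ha, add_comm (g a)]
    exact SumOf.add (ih fun x hx => hg x (mem_insert_of_mem hx)) (hg a (mem_insert_self a s))

theorem SumOf.ite {S : Set (Y → F)} {d : ℕ} {g x : Y → F} (h : SumOf S d g) (P : Prop)
    [Decidable P] (hx : x ∈ S) :
    SumOf S (d + if P then 1 else 0) (g + if P then x else 0) := by
  by_cases hP : P
  · rw [if_pos hP, if_pos hP]
    exact SumOf.add h hx
  · rw [if_neg hP, if_neg hP, add_zero, add_zero]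
    exact h

end sums

section potential

variable {F V Y : Type*} [Field F]

open Classical in
/-- the weight of a node -/
noncomputable def pot (C : Circuit F V) (t : ℕ) (v : Fin C.nodes) (l : Y → F) (d : ℕ) : ℤ :=
  if (v : ℕ) < t then (d : ℤ) else if l = 0 then 0 else 1 - ee C v

theorem pot_lt {C : Circuit F V} {t : ℕ} {v : Fin C.nodes} (h : (v : ℕ) < t) (l : Y → F) (d : ℕ) :
    pot C t v l d = d := by
  unfold pot
  exact if_pos h

theorem pot_zero {C : Circuit F V} {t : ℕ} {v : Fin C.nodes} (h : t ≤ (v : ℕ)) (d : ℕ) :
    pot C t v (0 : Y → F) d = 0 := by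
  unfold pot
  rw [if_neg (Nat.not_lt.2 h), if_pos rfl]

theorem pot_ne {C : Circuit F V} {t : ℕ} {v : Fin C.nodes} (h : t ≤ (v : ℕ)) {l : Y → F}
    (hl : l ≠ 0) (d : ℕ) : pot C t v l d = 1 - ee C v := by
  unfold pot
  rw [if_neg (Nat.not_lt.2 h), if_neg hl]

theorem pot_ge {C : Circuit F V} {t t' : ℕ} {v : Fin C.nodes} (h : t ≤ (v : ℕ))
    (h' : t' ≤ (v : ℕ)) (l : Y → F) (d d' : ℕ) : pot C t v l d = pot C t' v l d' := by
  unfold pot
  rw [if_neg (Nat.not_lt.2 h), if_neg (Nat.not_lt.2 h')]

end potential

variable {F V Y : Type*} [Field F] [Fintype Y] [DecidableEq Y]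

/-- the state of the construction of the chain before node `t` is processed -/
def St (C : Circuit F V) (out : Y → Fin C.nodes) (t : ℕ) : Prop :=
  ∃ (lam : Fin C.nodes → Y → F) (d : Fin C.nodes → ℕ) (n : ℕ) (S : Set (Y → F)), Built n S ∧
    (∀ v : Fin C.nodes, (v : ℕ) < t → SumOf S (d v) (lam v)) ∧
    (∀ v : Fin C.nodes, t ≤ (v : ℕ) → lam v ∈ S) ∧
    (∀ v, qd C v = 0 → lam v = 0) ∧
    (∀ y, qd C (out y) = ∑ v : Fin C.nodes, lam v y • (if (v : ℕ) < t then qd C v else bil C v)) ∧
    (n : ℤ) + ∑ v : Fin C.nodes, pot C t v (lam v) (d v) ≤ Fintype.card Y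

theorem St.start (C : Circuit F V) (out : Y → Fin C.nodes) (hout : ∀ y, qd C (out y) ≠ 0) :
    St C out C.nodes := by
  classical
  refine ⟨fun v => ∑ y ∈ univ.filter (fun y => out y = v), Pi.single y 1,
    fun v => (univ.filter (fun y => out y = v)).card, 0, _, Built.base, ?_, ?_, ?_, ?_, ?_⟩
  · intro v _
    exact SumOf.finset _ _ fun y _ => ⟨y, 1, (one_smul _ _).symm⟩
  · intro v hv
    exact absurd v.2 (by omega)
  · intro v hv
    refine sum_eq_zero fun y hy => ?_
    rw [mem_filter] at hy
    rw [← hy.2] at hv
    exact absurd hv (hout y)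
  · intro y
    have h1 : ∀ v : Fin C.nodes, (∑ y' ∈ univ.filter (fun y' => out y' = v),
        (Pi.single y' 1 : Y → F)) y = if v = out y then 1 else 0 := by
      intro v
      rw [Finset.sum_apply]
      simp only [Pi.single_apply]
      rw [sum_ite_eq]
      simp only [mem_filter, mem_univ, true_and]
      exact if_congr eq_comm rfl rfl
    simp only [h1, Fin.is_lt, if_true, ite_smul, one_smul, zero_smul, sum_ite_eq', mem_univ]
  · rw [Nat.cast_zero, zero_add, sum_congr rfl fun v _ => pot_lt (Fin.is_lt v) _ _,
      ← Nat.cast_sum, ← card_eq_sum_card_fiberwise (s := (univ : Finset Y)) (t := univ)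
      (fun _ _ => mem_coe.2 (mem_univ _)), card_univ]

theorem St.step [Nonempty Y] {C : Circuit F V} {out : Y → Fin C.nodes} {t : ℕ}
    (ht : t < C.nodes) (h : St C out (t + 1)) : St C out t := by
  classical
  obtain ⟨lam, d, n, S, hB, h1, h2, h3, h4, h5⟩ := h
  set w : Fin C.nodes := ⟨t, ht⟩ with hw
  have hwt : (w : ℕ) = t := rfl
  have hne : ∀ v : Fin C.nodes, v ≠ w → ((v : ℕ) < t + 1 ↔ (v : ℕ) < t) := by
    intro v hv
    have : (v : ℕ) ≠ t := fun h => hv (Fin.ext h)
    omega
  by_cases h0 : lam w = 0
  · refine ⟨lam, d, n, S, hB, fun v hv => h1 v (by omega), fun v hv => ?_, h3, fun y => ?_, ?_⟩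
    · by_cases hvw : v = w
      · rw [hvw, h0]
        exact hB.zero_mem
      · have : (v : ℕ) ≠ t := fun h => hvw (Fin.ext h)
        exact h2 v (by omega)
    · rw [h4 y]
      refine sum_congr rfl fun v _ => ?_
      by_cases hvw : v = w
      · rw [hvw, h0, Pi.zero_apply, zero_smul, zero_smul]
      · simp only [hne v hvw]
    · refine le_trans ?_ h5
      refine add_le_add le_rfl (sum_le_sum fun v _ => ?_)
      by_cases hvw : v = w
      · rw [hvw, h0, pot_zero (by omega), pot_lt (by omega)]
        positivity
      · have : (v : ℕ) ≠ t := fun h => hvw (Fin.ext h)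
        rcases lt_or_ge (v : ℕ) t with h7 | h7
        · rw [pot_lt h7, pot_lt (by omega)]
        · exact (pot_ge h7 (by omega) _ _ _).le
  · -- a node which matters
    have hd : 1 ≤ d w := by
      by_contra hcon
      have h6 := h1 w (by omega)
      rw [show d w = 0 by omega] at h6
      exact h0 h6.eq_zero
    have h6 := h1 w (by omega)
    rw [show d w = (d w - 1) + 1 by omega] at h6
    obtain ⟨S', hSS, hB', hwS⟩ := hB.sum h6
    have hgate : IsGate C w := by
      by_contra hg
      exact h0 (h3 w (qd_not_gate hg))
    obtain ⟨i, j, hi, hj, a, b, hq, hPa, hQb⟩ := qd_gate hgate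
    set PP : Prop := HNS C w with hPP
    set QQ : Prop := HNS C w ∨ ¬ Costly C w with hQQ
    have hi' : (i : ℕ) < t := hi
    have hj' : (j : ℕ) < t := hj
    set p : Y → F := if qd C i = 0 then 0 else a • lam w with hp
    set q : Y → F := if qd C j = 0 then 0 else b • lam w with hqq
    have hpS : p ∈ S' := by
      rw [hp]
      split_ifs
      · exact hB'.zero_mem
      · exact hB'.smul_mem hwS a
    have hqS : q ∈ S' := by
      rw [hqq]
      split_ifs
      · exact hB'.zero_mem
      · exact hB'.smul_mem hwS b
    have hp0 : PP → p = 0 := by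
      intro hh
      rw [hp, hPa hh]
      simp
    have hq0 : QQ → q = 0 := by
      intro hh
      rw [hqq, hQb hh]
      simp
    refine ⟨fun v => lam v + (if v = i ∧ ¬ PP then p else 0) +
        (if v = j ∧ ¬ QQ then q else 0),
      fun v => d v + (if v = i ∧ ¬ PP then 1 else 0) + (if v = j ∧ ¬ QQ then 1 else 0),
      n + (d w - 1), S', hB', ?_, ?_, ?_, ?_, ?_⟩
    · intro v hv
      exact (((h1 v (by omega)).mono hSS).ite _ hpS).ite _ hqS
    · intro v hv
      have hvi : v ≠ i := fun h => by rw [h] at hv; omega
      have hvj : v ≠ j := fun h => by rw [h] at hv; omega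
      simp only [hvi, hvj, false_and, if_false, add_zero]
      by_cases hvw : v = w
      · rw [hvw]
        exact hwS
      · have : (v : ℕ) ≠ t := fun h => hvw (Fin.ext h)
        exact hSS (h2 v (by omega))
    · intro v hv
      have e1 : (if v = i ∧ ¬ PP then p else 0) = 0 := by
        split_ifs with h7
        · rw [hp, ← h7.1, if_pos hv]
        · rfl
      have e2 : (if v = j ∧ ¬ QQ then q else 0) = 0 := by
        split_ifs with h7
        · rw [hqq, ← h7.1, if_pos hv]
        · rfl
      simp only [e1, e2, h3 v hv, add_zero]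
    · intro y
      have e1 : ∀ v : Fin C.nodes, (if v = i ∧ ¬ PP then p else 0) =
          if v = i then p else 0 := by
        intro v
        by_cases hh : PP
        · rw [hp0 hh]
          simp
        · simp [hh]
      have e2 : ∀ v : Fin C.nodes, (if v = j ∧ ¬ QQ then q else 0) =
          if v = j then q else 0 := by
        intro v
        by_cases hh : QQ
        · rw [hq0 hh]
          simp
        · simp [hh]
      have e3 : p y • qd C i = (lam w y * a) • qd C i := by
        rw [hp]
        split_ifs with h7
        · rw [h7, smul_zero, smul_zero]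
        · rw [Pi.smul_apply, smul_eq_mul, mul_comm]
      have e4 : q y • qd C j = (lam w y * b) • qd C j := by
        rw [hqq]
        split_ifs with h7
        · rw [h7, smul_zero, smul_zero]
        · rw [Pi.smul_apply, smul_eq_mul, mul_comm]
      have e5 : ∑ v : Fin C.nodes, lam v y • (if (v : ℕ) < t + 1 then qd C v else bil C v) =
          ∑ v : Fin C.nodes, (lam v y • (if (v : ℕ) < t then qd C v else bil C v) +
            if v = w then lam w y • (qd C w - bil C w) else 0) := by
        refine sum_congr rfl fun v _ => ?_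
        by_cases hvw : v = w
        · rw [hvw, if_pos (by omega), if_neg (by omega), if_pos rfl, smul_sub]
          abel
        · simp only [hne v hvw, if_neg hvw, add_zero]
      rw [h4 y, e5, sum_add_distrib, sum_ite_eq' univ w, if_pos (mem_univ _), hq]
      simp only [e1, e2, Pi.add_apply, add_smul, sum_add_distrib]
      have e6 : ∀ (u : Fin C.nodes) (r : Y → F), (u : ℕ) < t →
          ∑ v : Fin C.nodes, (if v = u then r else 0 : Y → F) y •
            (if (v : ℕ) < t then qd C v else bil C v) = r y • qd C u := by
        intro u r hu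
        rw [Finset.sum_eq_single u]
        · rw [if_pos rfl, if_pos hu]
        · intro v _ hv
          rw [if_neg hv, Pi.zero_apply, zero_smul]
        · intro h
          exact absurd (mem_univ _) h
      rw [e6 i p hi', e6 j q hj', e3, e4, add_sub_cancel_right, smul_add, smul_smul, smul_smul,
        add_assoc]
    · have e1 : ∀ v : Fin C.nodes, pot C t v (lam v + (if v = i ∧ ¬ PP then p else 0) +
            (if v = j ∧ ¬ QQ then q else 0))
          (d v + (if v = i ∧ ¬ PP then 1 else 0) + (if v = j ∧ ¬ QQ then 1 else 0)) =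
          pot C (t + 1) v (lam v) (d v) +
          (if v = w then (1 - ee C w - d w) else 0) + (if v = i then (if PP then 0 else 1)
            else 0) + (if v = j then (if QQ then 0 else 1) else 0) := by
        intro v
        rcases lt_trichotomy (v : ℕ) t with h7 | h7 | h7
        · have hvw : v ≠ w := fun h => by rw [h] at h7; omega
          rw [pot_lt h7, pot_lt (by omega), if_neg hvw]
          push_cast
          by_cases hh : PP <;> by_cases hh' : QQ <;> simp [hh, hh']
        · have hvw : v = w := Fin.ext h7
          have hwi : w ≠ i := fun h => by rw [← h] at hi'; omega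
          have hwj : w ≠ j := fun h => by rw [← h] at hj'; omega
          rw [hvw, if_pos rfl, pot_lt (show (w : ℕ) < t + 1 by omega)]
          simp only [hwi, hwj, false_and, if_false, add_zero]
          rw [pot_ne (by omega) h0]
          ring
        · have hvw : v ≠ w := fun h => by rw [h] at h7; omega
          have hvi : v ≠ i := fun h => by rw [h] at h7; omega
          have hvj : v ≠ j := fun h => by rw [h] at h7; omega
          rw [if_neg hvw]
          simp only [hvi, hvj, false_and, if_false, add_zero]
          exact pot_ge (by omega) (by omega) _ _ _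
      have e2 : ee C w = (if PP then 0 else 1) + (if QQ then 0 else 1) := rfl
      simp only [e1, sum_add_distrib, sum_ite_eq', mem_univ, if_true]
      rw [← add_assoc, ← add_assoc, ← add_assoc]
      push_cast [hd]
      linarith

/-- **The transposed chain.** -/
theorem backward [Nonempty Y] (C : Circuit F V) (out : Y → Fin C.nodes)
    (hout : ∀ y, qd C (out y) ≠ 0) :
    ∃ (lam : Fin C.nodes → Y → F) (n : ℕ) (S : Set (Y → F)), Built n S ∧ (∀ v, lam v ∈ S) ∧
      (∀ v, qd C v = 0 → lam v = 0) ∧ (∀ y, qd C (out y) = ∑ v, lam v y • bil C v) ∧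
      (n : ℤ) + ∑ v, pot C 0 v (lam v) 0 ≤ Fintype.card Y := by
  have key : ∀ k : ℕ, k ≤ C.nodes → St C out (C.nodes - k) := by
    intro k
    induction k with
    | zero => exact fun _ => St.start C out hout
    | succ k ih =>
      intro hk
      have h := ih (by omega)
      rw [show C.nodes - k = (C.nodes - (k + 1)) + 1 by omega] at h
      exact h.step (by omega)
  obtain ⟨lam, d, n, S, hB, _, h2, h3, h4, h5⟩ := key C.nodes le_rfl
  rw [Nat.sub_self] at h2 h4 h5
  refine ⟨lam, n, S, hB, fun v => h2 v (Nat.zero_le _), h3, fun y => ?_, ?_⟩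
  · rw [h4 y]
    exact sum_congr rfl fun v _ => by rw [if_neg (Nat.not_lt_zero _)]
  · refine le_trans (le_of_eq ?_) h5
    rw [sum_congr rfl fun v _ => pot_ge (Nat.zero_le _) (Nat.zero_le _) _ _ _]

end Pool.Agent.Helper24.MM
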