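import Pool.Graph.R_seed8.W946.SzFin

set_option autoImplicit false

/-!
# Chains of linear forms

`Built n S`: the set `S` consists of the multiples of the variables and of `n` linear forms, each
of which is the sum of multiples of two earlier ones.
-/

namespace Pool.Agent.Helper24.MM

open Finset

variable {F V : Type*} [Field F] [DecidableEq V]

/-- the set `S` of linear forms can be reached with `n` additions -/
inductive Built : ℕ → Set (V → F) → Prop
  | base : Built 0 {g | ∃ (x : V) (a : F), g = a • (Pi.single x 1 : V → F)}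
  | step {n : ℕ} {S : Set (V → F)} {g₁ g₂ : V → F} (h : Built n S) (h₁ : g₁ ∈ S) (h₂ : g₂ ∈ S) :
      Built (n + 1) (S ∪ {g | ∃ a : F, g = a • (g₁ + g₂)})

theorem Built.smul_mem {n : ℕ} {S : Set (V → F)} (h : Built n S) {g : V → F} (hg : g ∈ S)
    (a : F) : a • g ∈ S := by
  induction h with
  | base =>
    obtain ⟨x, b, rfl⟩ := hg
    exact ⟨x, a * b, by rw [smul_smul]⟩
  | step h h₁ h₂ ih =>
    rcases hg with hg | ⟨b, rfl⟩
    · exact Or.inl (ih hg)
    · exact Or.inr ⟨a * b, by rw [smul_smul]⟩

theorem Built.zero_mem [Nonempty V] {n : ℕ} {S : Set (V → F)} (h : Built n S) :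
    (0 : V → F) ∈ S := by
  induction h with
  | base => exact ⟨Classical.arbitrary V, 0, by rw [zero_smul]⟩
  | step h h₁ h₂ ih => exact Or.inl ih

theorem Built.single_mem {n : ℕ} {S : Set (V → F)} (h : Built n S) (x : V) :
    (Pi.single x 1 : V → F) ∈ S := by
  induction h with
  | base => exact ⟨x, 1, by rw [one_smul]⟩
  | step h h₁ h₂ ih => exact Or.inl ih

/-- sums of `d` elements -/
inductive SumOf (S : Set (V → F)) : ℕ → (V → F) → Prop
  | zero : SumOf S 0 0
  | add {d : ℕ} {g s : V → F} (h : SumOf S d g) (hs : s ∈ S) : SumOf S (d + 1) (g + s)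

omit [DecidableEq V] in
theorem SumOf.mono {S S' : Set (V → F)} (hS : S ⊆ S') {d : ℕ} {g : V → F} (h : SumOf S d g) :
    SumOf S' d g := by
  induction h with
  | zero => exact SumOf.zero
  | add h hs ih => exact SumOf.add ih (hS hs)

omit [DecidableEq V] in
theorem SumOf.eq_zero {S : Set (V → F)} {g : V → F} (h : SumOf S 0 g) : g = 0 := by
  cases h
  rfl

/-- `d` additions give a sum of `d + 1` elements -/
theorem Built.sum {n : ℕ} {S : Set (V → F)} (h : Built n S) {d : ℕ} {g : V → F}
    (hg : SumOf S (d + 1) g) : ∃ S' : Set (V → F), S ⊆ S' ∧ Built (n + d) S' ∧ g ∈ S' := by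
  induction d generalizing g with
  | zero =>
    cases hg with
    | add h1 hs =>
      rw [h1.eq_zero, zero_add]
      exact ⟨S, subset_rfl, h, hs⟩
  | succ d ih =>
    cases hg with
    | add h1 hs =>
      obtain ⟨S', hS, hB, hg⟩ := ih h1
      exact ⟨_, hS.trans Set.subset_union_left, hB.step hg (hS hs),
        Or.inr ⟨1, (one_smul _ _).symm⟩⟩

/-- the linear form of a symbol: a variable or a member of the chain -/
noncomputable def sym {N : ℕ} (f : Fin N → V → F) : V ⊕ Fin N → V → F :=
  Sum.elim (fun x => Pi.single x 1) f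

/-- A set which is reached with `n` additions, as a sequence. -/
theorem Built.exists_seq {n : ℕ} {S : Set (V → F)} (h : Built n S) :
    ∃ (f : Fin n → V → F) (s t : Fin n → V ⊕ Fin n) (a b : Fin n → F),
      (∀ k j, s k = Sum.inr j → j < k) ∧ (∀ k j, t k = Sum.inr j → j < k) ∧
      (∀ k, f k = a k • sym f (s k) + b k • sym f (t k)) ∧
      ∀ g ∈ S, ∃ (c : F) (σ : V ⊕ Fin n), g = c • sym f σ := by
  induction h with
  | base =>
    refine ⟨fun k => k.elim0, fun k => k.elim0, fun k => k.elim0, fun k => k.elim0,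
      fun k => k.elim0, fun k => k.elim0, fun k => k.elim0, fun k => k.elim0, ?_⟩
    rintro g ⟨x, c, rfl⟩
    exact ⟨c, Sum.inl x, rfl⟩
  | @step n S g₁ g₂ h h₁ h₂ ih =>
    obtain ⟨f, s, t, a, b, hs, ht, hf, hS⟩ := ih
    obtain ⟨c₁, σ₁, e₁⟩ := hS g₁ h₁
    obtain ⟨c₂, σ₂, e₂⟩ := hS g₂ h₂
    -- the new sequence
    let up : V ⊕ Fin n → V ⊕ Fin (n + 1) := Sum.map id Fin.castSucc
    let f' : Fin (n + 1) → V → F := Fin.snoc f (g₁ + g₂)
    have hup : ∀ σ, sym f' (up σ) = sym f σ := by
      rintro (x | k)
      · rfl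
      · simp [up, f', sym]
    have hlt : ∀ (σ : V ⊕ Fin n) (j : Fin (n + 1)), up σ = Sum.inr j → j < Fin.last n := by
      rintro (x | k) j h
      · simp [up] at h
      · simp only [up, Sum.map_inr, Sum.inr.injEq] at h
        rw [← h]
        exact Fin.castSucc_lt_last k
    refine ⟨f', Fin.snoc (fun k => up (s k)) (up σ₁), Fin.snoc (fun k => up (t k)) (up σ₂),
      Fin.snoc a c₁, Fin.snoc b c₂, ?_, ?_, ?_, ?_⟩
    · intro k j
      refine Fin.lastCases ?_ (fun k => ?_) k
      · rw [Fin.snoc_last]
        exact hlt _ _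
      · rw [Fin.snoc_castSucc]
        intro h
        cases hk : s k with
        | inl x => rw [hk] at h; simp [up] at h
        | inr l =>
          rw [hk] at h
          simp only [up, Sum.map_inr, Sum.inr.injEq] at h
          rw [← h]
          exact hs k l hk
    · intro k j
      refine Fin.lastCases ?_ (fun k => ?_) k
      · rw [Fin.snoc_last]
        exact hlt _ _
      · rw [Fin.snoc_castSucc]
        intro h
        cases hk : t k with
        | inl x => rw [hk] at h; simp [up] at h
        | inr l =>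
          rw [hk] at h
          simp only [up, Sum.map_inr, Sum.inr.injEq] at h
          rw [← h]
          exact ht k l hk
    · intro k
      refine Fin.lastCases ?_ (fun k => ?_) k
      · simp only [Fin.snoc_last, f']
        rw [show sym (Fin.snoc f (g₁ + g₂) : Fin (n + 1) → V → F) (up σ₁) = sym f σ₁ from hup σ₁,
          show sym (Fin.snoc f (g₁ + g₂) : Fin (n + 1) → V → F) (up σ₂) = sym f σ₂ from hup σ₂,
          ← e₁, ← e₂]
      · have h1 : f' k.castSucc = f k := by simp [f']
        rw [h1]
        simp only [Fin.snoc_castSucc]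
        rw [hup, hup]
        exact hf k
    · rintro g (hg | ⟨c, rfl⟩)
      · obtain ⟨c, σ, e⟩ := hS g hg
        exact ⟨c, up σ, by rw [hup, e]⟩
      · refine ⟨c, Sum.inr (Fin.last n), ?_⟩
        simp [sym, f']

end Pool.Agent.Helper24.MM
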