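import Pool.Agent.Helper24.MM.Chain

set_option autoImplicit false

/-!
# Chains which compute a code of large distance are long
-/

namespace Pool.Agent.Helper24.MM

open Finset Pool.Agent.W946.Sz

variable {F V : Type*} [Field F] [DecidableEq V] [Fintype V]

section system

variable {n : ℕ} (f : Fin n → V → F) (s t : Fin n → V ⊕ Fin n) (a b : Fin n → F)

/-- the coefficients of the equations between the members of a sequence -/
noncomputable def HH (k : Fin n) (σ : V ⊕ Fin n) : F :=
  (if σ = Sum.inr k then 1 else 0) - a k * (if σ = s k then 1 else 0)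
    - b k * (if σ = t k then 1 else 0)

theorem sum_HH (k : Fin n) (x : V ⊕ Fin n → F) :
    ∑ σ, HH s t a b k σ * x σ = x (Sum.inr k) - a k * x (s k) - b k * x (t k) := by
  simp only [HH, sub_mul, sum_sub_distrib, ite_mul, one_mul, zero_mul, mul_assoc, ← mul_sum,
    sum_ite_eq', mem_univ, if_true]

omit [Fintype V] in
theorem row_HH (E : Finset (V ⊕ Fin n)) (k : Fin n) : (row (HH s t a b) E k).card ≤ 3 := by
  classical
  refine (card_le_card (t := {Sum.inr k, s k, t k}) ?_).trans card_le_three
  intro σ hs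
  unfold row at hs
  rw [mem_filter] at hs
  by_contra hcon
  simp only [mem_insert, mem_singleton, not_or] at hcon
  apply hs.2
  rw [HH, if_neg hcon.1, if_neg hcon.2.1, if_neg hcon.2.2]
  ring

variable {f s t a b}

/-- a solution is given by a point -/
theorem sol_HH (hs : ∀ k j, s k = Sum.inr j → j < k) (ht : ∀ k j, t k = Sum.inr j → j < k)
    (hf : ∀ k, f k = a k • sym f (s k) + b k • sym f (t k)) {E : Finset (V ⊕ Fin n)}
    {x : V ⊕ Fin n → F} (hx : Sol (HH s t a b) E univ x) (σ : V ⊕ Fin n) :
    x σ = dotProduct (sym f σ) (fun z => x (Sum.inl z)) := by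
  set X : V → F := fun z => x (Sum.inl z) with hX
  have h0 : ∀ z : V, x (Sum.inl z) = dotProduct (sym f (Sum.inl z)) X := by
    intro z
    simp [sym, hX]
  have key : ∀ w : Fin n, x (Sum.inr w) = dotProduct (f w) X := by
    intro w
    induction w using WellFoundedLT.induction with
    | _ w ih =>
    have h1 := hx.2 w (mem_univ _)
    have h2 : ∑ e ∈ E, HH s t a b w e * x e = ∑ e, HH s t a b w e * x e := by
      refine sum_subset (subset_univ _) fun e _ he => ?_
      rw [hx.1 e he, mul_zero]
    rw [h2, sum_HH] at h1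
    have h3 : ∀ σ : V ⊕ Fin n, (∀ j, σ = Sum.inr j → j < w) → x σ = dotProduct (sym f σ) X := by
      intro σ hσ
      cases σ with
      | inl z => exact h0 z
      | inr w' => exact ih w' (hσ w' rfl)
    rw [h3 _ (hs w), h3 _ (ht w)] at h1
    rw [hf w, add_dotProduct, smul_dotProduct, smul_dotProduct]
    simp only [smul_eq_mul]
    linear_combination h1
  cases σ with
  | inl z => exact h0 z
  | inr w => exact key w

end system

variable {n : ℕ} {S : Set (V → F)}

/-- **Chains which compute a code of large distance are long.** -/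
theorem Built.bound (h : Built n S) {L : Type*} [Fintype L] (req : L → V → F)
    (hreq : ∀ l, req l ∈ S) {W : ℕ}
    (hW : ∀ X : V → F, X ≠ 0 → ∃ Q : Finset L, W ≤ Q.card ∧ ∀ l ∈ Q, dotProduct (req l) X ≠ 0)
    {η : ℝ} (hη : 0 < η) {i Δ r : ℕ} (hΔ : 0 < Δ) (hi : 1 ≤ i) (hn : (n : ℝ) ≤ (1 + η) ^ i)
    (hT : Δ * ((1 + Δ) ^ r * (4 * i + 3)) ≤ W) :
    (2 : ℝ) ^ r * (3 * (Fintype.card V - (3 * n + Fintype.card L) / (Δ + 1)) -
      (1 + η) * n) ≤ 3 * Fintype.card V := by
  classical
  obtain ⟨f, s, t, a, b, hs, ht, hf, hS⟩ := h.exists_seq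
  choose c rep hrep using fun l => hS _ (hreq l)
  set H := HH s t a b with hH
  let use : V ⊕ Fin n → Finset L := fun σ => univ.filter fun l => rep l = σ
  set light : Finset (V ⊕ Fin n) :=
    univ.filter fun σ => (eqs H univ σ).card ≤ Δ ∧ (use σ).card ≤ Δ with hlight
  -- the heavy symbols
  have h1 : ∑ σ, (eqs H univ σ).card ≤ 3 * n := by
    rw [count_inc]
    refine (sum_le_card_nsmul _ _ 3 fun c _ => row_HH s t a b _ c).trans (le_of_eq ?_)
    rw [smul_eq_mul, mul_comm, card_univ, Fintype.card_fin]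
  have h2 : ∑ σ, (use σ).card = Fintype.card L := by
    have := card_eq_sum_card_fiberwise (s := (univ : Finset L)) (t := univ) (f := rep)
      (fun _ _ => mem_coe.2 (mem_univ _))
    rw [← card_univ, this]
  have h3 : ∑ σ : V ⊕ Fin n, (Δ + 1) ≤ ∑ σ, ((if (eqs H univ σ).card ≤ Δ ∧
      (use σ).card ≤ Δ then (Δ + 1) else 0) + ((eqs H univ σ).card + (use σ).card)) := by
    refine sum_le_sum fun σ _ => ?_
    by_cases h : (eqs H univ σ).card ≤ Δ ∧ (use σ).card ≤ Δ
    · rw [if_pos h]
      exact Nat.le_add_right _ _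
    · rw [if_neg h]
      omega
  rw [sum_const, smul_eq_mul, sum_add_distrib, sum_add_distrib, h2] at h3
  have h4 : ∑ σ, (if (eqs H univ σ).card ≤ Δ ∧ (use σ).card ≤ Δ then (Δ + 1) else 0)
      = light.card * (Δ + 1) := by
    rw [← sum_filter, sum_const, smul_eq_mul]
  rw [h4, card_univ, Fintype.card_sum, Fintype.card_fin] at h3
  have h5 : (Fintype.card V + n) * (Δ + 1) ≤ light.card * (Δ + 1) + (3 * n + Fintype.card L) := by
    omega
  -- the distance
  have hdist : Dist H light univ ((1 + Δ) ^ r * (4 * i + 3)) := by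
    intro x hx h0
    have hX : (fun z => x (Sum.inl z)) ≠ 0 := by
      intro hz
      apply h0
      funext σ
      rw [sol_HH hs ht hf hx σ, hz, dotProduct_zero, Pi.zero_apply]
    obtain ⟨Q, hQ, hQ'⟩ := hW _ hX
    have h6 : Q ⊆ (spt light x).biUnion use := by
      intro l hl
      have h7 := hQ' l hl
      rw [hrep l, smul_dotProduct, ← sol_HH hs ht hf hx, smul_eq_mul] at h7
      have h8 := right_ne_zero_of_mul h7
      rw [mem_biUnion]
      refine ⟨rep l, ?_, ?_⟩
      · unfold spt
        rw [mem_filter]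
        refine ⟨?_, h8⟩
        by_contra h9
        exact h8 (hx.1 _ h9)
      · simp [use]
    have h7 : Q.card ≤ (spt light x).card * Δ := by
      refine (card_le_card h6).trans (card_biUnion_le.trans ?_)
      refine (sum_le_card_nsmul _ _ Δ fun σ hσ => ?_).trans (le_of_eq (smul_eq_mul _ _))
      unfold spt at hσ
      rw [mem_filter, hlight, mem_filter] at hσ
      exact hσ.1.2.2
    have h8 : Δ * ((1 + Δ) ^ r * (4 * i + 3)) ≤ Δ * (spt light x).card := by
      rw [mul_comm Δ (Finset.card _)]
      exact hT.trans (hQ.trans h7)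
    exact Nat.le_of_mul_le_mul_left h8 hΔ
  have h6 := rounds (H := H) (Δ := Δ) hη hi r light univ (fun c _ => row_HH s t a b _ c)
    (fun e he => (mem_filter.1 he).2.1) (by
      rw [card_univ, Fintype.card_fin]
      exact hn) hdist
  rw [card_univ, Fintype.card_fin] at h6
  -- arithmetic
  have hΔr : (0 : ℝ) < (Δ : ℝ) + 1 := by positivity
  have h7 : ((Fintype.card V : ℝ) + n) * (Δ + 1) ≤ light.card * (Δ + 1) +
      (3 * n + Fintype.card L) := by exact_mod_cast h5
  have h8 : (Fintype.card V : ℝ) - (3 * n + Fintype.card L) / (Δ + 1) ≤ light.card - n := by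
    have : (Fintype.card V : ℝ) - (light.card - n) ≤ (3 * n + Fintype.card L) / (Δ + 1) := by
      rw [le_div_iff₀ hΔr]
      nlinarith
    linarith
  have h9 : (light.card : ℝ) - n ≤ Fintype.card V := by
    have h10 : light.card ≤ Fintype.card V + n := by
      refine (card_le_univ _).trans (le_of_eq ?_)
      rw [Fintype.card_sum, Fintype.card_fin]
    have : (light.card : ℝ) ≤ Fintype.card V + n := by exact_mod_cast h10
    linarith
  have h10 : 3 * ((Fintype.card V : ℝ) - (3 * n + Fintype.card L) / (Δ + 1)) - (1 + η) * n ≤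
      3 * (light.card - n) - (1 + η) * n := by linarith
  have h11 := mul_le_mul_of_nonneg_left h10 (show (0 : ℝ) ≤ 2 ^ r by positivity)
  linarith

end Pool.Agent.Helper24.MM
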