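import Pool.Agent.Helper24.MM.Parts

set_option autoImplicit false

/-!
# The bound for homogeneous circuits, and for circuits with few inhomogeneous gates
-/

namespace Pool.Agent.Helper24.MM

open Finset Pool.Agent.H88R3.MM Pool.Agent.H522R2 Pool.Agent.H522R2.Circuit Pool.Agent.W946.Kos
open Pool.Agent.W946.Sz

section defs

variable {F V : Type*} [Field F]

open Classical in
/-- the additions -/
noncomputable def AA (C : Circuit F V) : Finset (Fin C.nodes) :=
  univ.filter fun v => ∃ i j, C.gate v = Gate.add i j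

open Classical in
/-- the gates which compute an inhomogeneous polynomial -/
noncomputable def II (C : Circuit F V) : Finset (Fin C.nodes) :=
  univ.filter fun v => IsGate C v ∧ ¬ ∃ k, (C.poly v).IsHomogeneous k

omit [Field F] in
theorem mem_AA {C : Circuit F V} {v : Fin C.nodes} :
    v ∈ AA C ↔ ∃ i j, C.gate v = Gate.add i j := by
  classical
  unfold AA
  simp only [mem_filter, mem_univ, true_and]

theorem mem_II {C : Circuit F V} {v : Fin C.nodes} :
    v ∈ II C ↔ IsGate C v ∧ ¬ ∃ k, (C.poly v).IsHomogeneous k := by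
  classical
  unfold II
  simp only [mem_filter, mem_univ, true_and]

end defs

variable {F : Type*} [Field F] {m : ℕ}

open Classical in
/-- **The main inequality**: two chains and the nonscalar multiplications. -/
theorem master (hm : 0 < m) (C : Circuit F (Vars m))
    (hC : ∀ i j, ∃ k : Fin C.nodes, C.poly k = entry F m i j) :
    ∃ (out : Fin m × Fin m → Fin C.nodes) (lam : Fin C.nodes → Fin m × Fin m → F)
      (n₁ n₂ : ℕ) (S₁ : Set (Vars m → F)) (S₂ : Set (Fin m × Fin m → F)),
      Tr C out lam ∧ Built n₁ S₁ ∧ Built n₂ S₂ ∧ (∀ v, lin C v ∈ S₁) ∧ (∀ v, lam v ∈ S₂) ∧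
      n₁ + n₂ + Fintype.card (LL C lam) ≤ (AA C).card + 3 * (II C).card + m ^ 2 := by
  choose out₀ hout₀ using hC
  set out : Fin m × Fin m → Fin C.nodes := fun y => out₀ y.1 y.2 with hout
  have hout' : ∀ y, C.poly (out y) = entry F m y.1 y.2 := fun y => hout₀ y.1 y.2
  have hne : ∀ y, qd C (out y) ≠ 0 := by
    intro y h
    have h1 := congrFun (congrFun h (Sum.inl (y.1, ⟨0, hm⟩))) (Sum.inr (⟨0, hm⟩, y.2))
    simp only [qd, hout'] at h1
    rw [D2_entry_diag, if_pos rfl] at h1
    exact one_ne_zero h1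
  have : Nonempty (Vars m) := ⟨Sum.inl (⟨0, hm⟩, ⟨0, hm⟩)⟩
  have : Nonempty (Fin m × Fin m) := ⟨(⟨0, hm⟩, ⟨0, hm⟩)⟩
  obtain ⟨n₁, S₁, hB₁, hn₁, hS₁⟩ := forward C
  obtain ⟨lam, n₂, S₂, hB₂, hS₂, hlam, heq, hn₂⟩ := backward C out hne
  refine ⟨out, lam, n₁, n₂, S₁, S₂, ⟨hout', heq⟩, hB₁, hB₂, hS₁, hS₂, ?_⟩
  set s₀ : Finset (Fin C.nodes) := univ.filter fun v => lam v ≠ 0 ∧
    ∃ i j, C.gate v = Gate.add i j with hs₀
  have hcg : ∀ v, Costly C v → IsGate C v := by
    rintro v (⟨i, j, hg⟩ | ⟨i, j, hg, _⟩)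
    · exact Or.inl ⟨i, j, hg⟩
    · exact Or.inr ⟨i, j, hg⟩
  have hgate : ∀ v, lam v ≠ 0 → IsGate C v := by
    intro v hv
    by_contra hg
    exact hv (hlam v (qd_not_gate hg))
  -- disjoint sets of cheap gates
  have h1 : (G1 C).card + s₀.card ≤ (AA C).card + (II C).card := by
    have h2 : Disjoint (G1 C \ II C) s₀ := by
      rw [Finset.disjoint_left]
      intro v hv hv'
      rw [mem_sdiff, mem_G1, mem_II] at hv
      rw [hs₀, mem_filter] at hv'
      have h3 : ∃ k, (C.poly v).IsHomogeneous k := by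
        by_contra h
        exact hv.2 ⟨hcg v hv.1.1, h⟩
      exact hv'.2.1 (hlam v (hom_lin_qd h3 hv.1.2))
    have h3 : (G1 C \ II C) ∪ s₀ ⊆ AA C := by
      intro v hv
      rw [mem_AA]
      rcases mem_union.1 hv with hv | hv
      · rw [mem_sdiff, mem_G1, mem_II] at hv
        rcases hv.1.1 with h | h
        · exact h
        · refine absurd (lin_of_HNS ⟨h, ?_⟩) hv.1.2
          by_contra h'
          exact hv.2 ⟨hcg v hv.1.1, h'⟩
      · rw [hs₀, mem_filter] at hv
        exact hv.2.2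
    have h4 := card_le_card h3
    rw [card_union_of_disjoint h2] at h4
    have h5 : (G1 C).card ≤ (G1 C \ II C).card + (II C).card := by
      have := card_le_card_sdiff_add_card (s := G1 C) (t := II C)
      omega
    omega
  -- the potential
  have h2 : (Fintype.card (LL C lam) : ℤ) - 2 * (II C).card - s₀.card ≤
      ∑ v, pot C 0 v (lam v) 0 := by
    have h3 : (Fintype.card (LL C lam) : ℤ) =
        ∑ v : Fin C.nodes, if C.IsNonscalar v ∧ lam v ≠ 0 then 1 else 0 := by
      rw [Fintype.card_subtype, card_filter]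
      push_cast
      rfl
    have h4 : ((II C).card : ℤ) = ∑ v : Fin C.nodes,
        if IsGate C v ∧ ¬ ∃ k, (C.poly v).IsHomogeneous k then 1 else 0 := by
      unfold II
      rw [card_filter]
      push_cast
      rfl
    have h5 : (s₀.card : ℤ) = ∑ v : Fin C.nodes,
        if lam v ≠ 0 ∧ ∃ i j, C.gate v = Gate.add i j then 1 else 0 := by
      rw [hs₀, card_filter]
      push_cast
      rfl
    rw [h3, h4, h5, mul_sum, ← sum_sub_distrib, ← sum_sub_distrib]
    refine sum_le_sum fun v _ => ?_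
    by_cases h0 : lam v = 0
    · rw [h0, pot_zero (Nat.zero_le _)]
      simp only [ne_eq, not_true_eq_false, and_false, false_and, if_false]
      split_ifs <;> norm_num
    · rw [pot_ne (Nat.zero_le _) h0]
      have hg := hgate v h0
      unfold ee HNS Costly
      by_cases hns : C.IsNonscalar v
      · have hadd : ¬ ∃ i j, C.gate v = Gate.add i j := by
          rintro ⟨i, j, h⟩
          obtain ⟨i', j', h', _⟩ := hns
          rw [h] at h'
          simp at h'
        by_cases hh : ∃ k, (C.poly v).IsHomogeneous k <;> simp [h0, hg, hns, hh, hadd]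
      · by_cases hadd : ∃ i j, C.gate v = Gate.add i j <;>
          by_cases hh : ∃ k, (C.poly v).IsHomogeneous k <;> simp [h0, hg, hns, hh, hadd]
  have h3 : Fintype.card (Fin m × Fin m) = m ^ 2 := by
    rw [Fintype.card_prod, Fintype.card_fin, sq]
  rw [h3] at hn₂
  push_cast at hn₂
  have h4 : (n₁ : ℤ) + n₂ + Fintype.card (LL C lam) ≤
      (AA C).card + 3 * (II C).card + (m : ℤ) ^ 2 := by
    have h5 : (n₁ : ℤ) ≤ (G1 C).card := by exact_mod_cast hn₁
    have h6 : ((G1 C).card : ℤ) + s₀.card ≤ (AA C).card + (II C).card := by exact_mod_cast h1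
    linarith
  exact_mod_cast h4

universe u

open Classical in
/-- **The bound for the additions.** -/
theorem cheap_bound (δ : ℝ) (hδ : 0 < δ) : ∃ m₀ : ℕ, ∀ (F : Type u) [Field F] (m : ℕ)
    (C : Circuit F (Vars m)), m₀ ≤ m →
    (∀ i j, ∃ k : Fin C.nodes, C.poly k = entry F m i j) →
    (11 - δ) * (m : ℝ) ^ 2 ≤ (AA C).card + 3 * (II C).card := by
  obtain ⟨m₁, h₁⟩ := Built.asymp.{u, 0, 0} (δ := δ / 3) (K := 24) (by positivity) (by norm_num)
  obtain ⟨m₂, h₂⟩ := three_of_core (ε := δ / 3) (by positivity)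
  refine ⟨max (max m₁ m₂) 1, fun F _ m C hm hC => ?_⟩
  have hm1 : m₁ ≤ m := le_trans (le_trans (le_max_left _ _) (le_max_left _ _)) hm
  have hm2 : m₂ ≤ m := le_trans (le_trans (le_max_right _ _) (le_max_left _ _)) hm
  have hm0 : 0 < m := le_trans (le_max_right _ _) hm
  by_contra hcon
  push Not at hcon
  obtain ⟨out, lam, n₁, n₂, S₁, S₂, T, hB₁, hB₂, hS₁, hS₂, hmain⟩ := master hm0 C hC
  set M : ℝ := (m : ℝ) ^ 2 with hM
  have hM0 : 0 < M := by
    have : (0 : ℝ) < m := by exact_mod_cast hm0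
    positivity
  set R : ℕ := Fintype.card (LL C lam) with hR
  have hmain' : (n₁ : ℝ) + n₂ + R ≤ (AA C).card + 3 * (II C).card + M := by
    rw [hM]
    exact_mod_cast hmain
  have hn₁0 : (0 : ℝ) ≤ n₁ := by positivity
  have hn₂0 : (0 : ℝ) ≤ n₂ := by positivity
  have hR0 : (0 : ℝ) ≤ R := by positivity
  have hδM : 0 < δ * M := by positivity
  have hle : (n₁ : ℝ) + n₂ + R ≤ 12 * M - δ * M := by nlinarith
  -- the nonscalar multiplications
  have e3 : (3 - δ / 3) * M ≤ R := h₂ m R hm2 fun q p hqp => T.three q p hqp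
  -- the forward chain
  have hV : (Fintype.card (Vars m) : ℝ) = 2 * M := by
    have : Fintype.card (Vars m) = 2 * m ^ 2 := by
      rw [Fintype.card_sum, Fintype.card_prod, Fintype.card_fin]
      ring
    rw [this, hM]
    push_cast
    ring
  have e1 : 3 * (Fintype.card (Vars m) : ℝ) - δ / 3 * M ≤ n₁ := by
    refine h₁ m hm1 F (Vars m) n₁ S₁ hB₁ (LL C lam × Bool)
      (fun l => lin C (if l.2 then (inp C l.1.1).1 else (inp C l.1.1).2)) (fun l => hS₁ _)
      (fun X hX => T.fdist hX) ?_ ?_ ?_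
    · rw [← hM]
      linarith
    · rw [hV, ← hM]
      linarith
    · rw [Fintype.card_prod, Fintype.card_bool, ← hR, ← hM]
      push_cast
      linarith
  have e2 : 3 * (Fintype.card (Fin m × Fin m) : ℝ) - δ / 3 * M ≤ n₂ := by
    have hY : (Fintype.card (Fin m × Fin m) : ℝ) = M := by
      rw [Fintype.card_prod, Fintype.card_fin, hM]
      push_cast
      ring
    refine h₁ m hm1 F (Fin m × Fin m) n₂ S₂ hB₂ (LL C lam) (fun l => lam l.1) (fun l => hS₂ _)
      (fun Z hZ => T.bdist hZ) ?_ ?_ ?_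
    · rw [← hM]
      linarith
    · rw [hY, ← hM]
      linarith
    · rw [← hR, ← hM]
      linarith
  have hY : (Fintype.card (Fin m × Fin m) : ℝ) = M := by
    rw [Fintype.card_prod, Fintype.card_fin, hM]
    push_cast
    ring
  rw [hV] at e1
  rw [hY] at e2
  nlinarith

end Pool.Agent.Helper24.MM
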