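import Mathlib

set_option autoImplicit false

/-!
# A factor of a homogeneous polynomial which does not vanish at the origin is constant
-/

namespace Pool.Agent.Helper24.MM

open Finset MvPolynomial

variable {F V : Type*} [Field F]

/-- `x ↦ x T` -/
noncomputable def scl : MvPolynomial V F →ₐ[F] Polynomial (MvPolynomial V F) :=
  aeval fun i => Polynomial.C (X i) * Polynomial.X

theorem scl_hom {p : MvPolynomial V F} {k : ℕ} (h : p.IsHomogeneous k) :
    scl p = Polynomial.C p * Polynomial.X ^ k := by
  have h1 : scl p = ∑ d ∈ p.support, algebraMap F (Polynomial (MvPolynomial V F)) (p.coeff d) *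
      ∏ i ∈ d.support, (Polynomial.C (X i) * Polynomial.X) ^ d i := by
    rw [scl, aeval_def, eval₂_eq]
  have h2 : ∀ d ∈ p.support, algebraMap F (Polynomial (MvPolynomial V F)) (p.coeff d) *
      ∏ i ∈ d.support, (Polynomial.C (X i) * Polynomial.X) ^ d i =
      Polynomial.C (monomial d (p.coeff d)) * Polynomial.X ^ k := by
    intro d hd
    have h3 : ∑ i ∈ d.support, d i = k := by
      have h5 := h (mem_support_iff.1 hd)
      have h6 : Finsupp.degree d = k := by
        rw [Finsupp.degree_eq_weight_one]
        exact h5
      exact h6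
    simp only [mul_pow]
    rw [prod_mul_distrib, prod_pow_eq_pow_sum, h3, ← mul_assoc]
    congr 1
    have h4 : ∏ x ∈ d.support, (Polynomial.C (X x : MvPolynomial V F)) ^ d x =
        Polynomial.C (∏ x ∈ d.support, (X x : MvPolynomial V F) ^ d x) := by
      rw [map_prod]
      simp only [map_pow]
    rw [h4, monomial_eq, map_mul]
    rfl
  rw [h1, sum_congr rfl h2, ← sum_mul, ← map_sum, ← as_sum]

theorem scl_eval_one (p : MvPolynomial V F) : (scl p).eval 1 = p := by
  induction p using MvPolynomial.induction_on with
  | C a =>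
    rw [scl, aeval_C]
    change Polynomial.eval 1 (Polynomial.C (C a)) = _
    rw [Polynomial.eval_C]
  | add p q hp hq => rw [map_add, Polynomial.eval_add, hp, hq]
  | mul_X p i hp => rw [map_mul, Polynomial.eval_mul, hp, scl, aeval_X]; simp

theorem scl_coeff_zero (p : MvPolynomial V F) : (scl p).coeff 0 = C (constantCoeff p) := by
  induction p using MvPolynomial.induction_on with
  | C a =>
    rw [scl, aeval_C]
    change (Polynomial.C (C a)).coeff 0 = _
    rw [Polynomial.coeff_C_zero, constantCoeff_C]
  | add p q hp hq => rw [map_add, Polynomial.coeff_add, hp, hq, map_add, map_add]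
  | mul_X p i hp =>
    rw [map_mul, Polynomial.mul_coeff_zero, hp, scl, aeval_X, Polynomial.mul_coeff_zero,
      Polynomial.coeff_X_zero, mul_zero, mul_zero, map_mul, constantCoeff_X, mul_zero, map_zero]

theorem eq_C_of_homogeneous {p q : MvPolynomial V F} {k : ℕ} (h : (p * q).IsHomogeneous k)
    (hq : q ≠ 0) (hp : constantCoeff p ≠ 0) : p = C (constantCoeff p) := by
  have hp0 : p ≠ 0 := by
    rintro rfl
    exact hp (map_zero _)
  have h1 := scl_hom h
  rw [map_mul] at h1
  have hsp : (scl p : Polynomial (MvPolynomial V F)) ≠ 0 := by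
    intro h2
    apply hp0
    rw [← scl_eval_one p, h2, Polynomial.eval_zero]
  have hsq : (scl q : Polynomial (MvPolynomial V F)) ≠ 0 := by
    intro h2
    apply hq
    rw [← scl_eval_one q, h2, Polynomial.eval_zero]
  have h2 := congrArg Polynomial.natDegree h1
  have h3 := congrArg Polynomial.natTrailingDegree h1
  rw [Polynomial.natDegree_mul hsp hsq, Polynomial.natDegree_C_mul_X_pow _ _ (mul_ne_zero hp0 hq)]
    at h2
  rw [Polynomial.natTrailingDegree_mul hsp hsq,
    Polynomial.natTrailingDegree_mul_X_pow (by simpa using mul_ne_zero hp0 hq),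
    Polynomial.natTrailingDegree_C, zero_add] at h3
  have h4 : (scl p).natTrailingDegree = 0 := by
    rw [Polynomial.natTrailingDegree_eq_zero]
    refine Or.inr ?_
    rw [scl_coeff_zero]
    intro h5
    apply hp
    have h6 := congrArg constantCoeff h5
    rwa [constantCoeff_C, map_zero] at h6
  have h5 := Polynomial.natTrailingDegree_le_natDegree (scl p)
  have h6 := Polynomial.natTrailingDegree_le_natDegree (scl q)
  have h7 : (scl p).natDegree = 0 := by omega
  have h8 := Polynomial.eq_C_of_natDegree_eq_zero h7
  have h9 := scl_eval_one p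
  rw [h8, Polynomial.eval_C, scl_coeff_zero] at h9
  exact h9.symm

end Pool.Agent.Helper24.MM
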