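import Pool.Agent.Helper24.MM.Chain
import Pool.Agent.Helper24.MM.Hom

set_option autoImplicit false

/-!
# The linear parts in a circuit form a chain
-/

namespace Pool.Agent.Helper24.MM

open Finset Pool.Agent.H88R3.MM Pool.Agent.H522R2 Pool.Agent.H522R2.Circuit Pool.Agent.W946.Kos
open Pool.Agent.W946.Sz

variable {F V : Type*} [Field F] [DecidableEq V]

/-- the gate is an addition or a nonscalar multiplication -/
def Costly (C : Circuit F V) (v : Fin C.nodes) : Prop :=
  (∃ i j, C.gate v = Gate.add i j) ∨ C.IsNonscalar v

open Classical in
/-- the additions and nonscalar multiplications with nonzero linear part -/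
noncomputable def G1 (C : Circuit F V) : Finset (Fin C.nodes) :=
  univ.filter fun v => Costly C v ∧ lin C v ≠ 0

omit [DecidableEq V] in
theorem mem_G1 {C : Circuit F V} {v : Fin C.nodes} : v ∈ G1 C ↔ Costly C v ∧ lin C v ≠ 0 := by
  classical
  unfold G1
  simp only [mem_filter, mem_univ, true_and]

omit [DecidableEq V] in
/-- multiplications by constants -/
theorem scalar_gate {C : Circuit F V} {v : Fin C.nodes} {i j : Fin (v : ℕ)}
    (hg : C.gate v = Gate.mul i j) (hns : ¬ C.IsNonscalar v) :
    ∃ (k : Fin C.nodes) (c : F), k < v ∧ C.poly v = MvPolynomial.C c * C.poly k := by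
  have h3 : (∃ c : F, C.poly (C.up v i) = MvPolynomial.C c) ∨
      ∃ c : F, C.poly (C.up v j) = MvPolynomial.C c := by
    by_contra hcon
    push Not at hcon
    exact hns ⟨i, j, hg, hcon.1, hcon.2⟩
  rcases h3 with ⟨c, hc⟩ | ⟨c, hc⟩
  · exact ⟨C.up v j, c, up_lt v j, by rw [poly_mul hg, hc]⟩
  · exact ⟨C.up v i, c, up_lt v i, by rw [poly_mul hg, hc, mul_comm]⟩

theorem lin_var {C : Circuit F V} {v : Fin C.nodes} {z : V} (hg : C.gate v = Gate.var z) :
    lin C v = Pi.single z 1 := by
  funext x
  simp only [lin, poly_var hg]
  unfold D1
  rw [MvPolynomial.pderiv_X, Pi.single_apply, Pi.single_apply]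
  by_cases hz : z = x
  · rw [if_pos hz, if_pos hz.symm, map_one]
  · rw [if_neg hz, if_neg (fun h' => hz h'.symm), map_zero]

omit [DecidableEq V] in
theorem lin_const {C : Circuit F V} {v : Fin C.nodes} {c : F} (hg : C.gate v = Gate.const c) :
    lin C v = 0 := by
  funext x
  simp only [lin, poly_const hg, D1_C, Pi.zero_apply]

/-- **The forward chain.** -/
theorem forward [Nonempty V] (C : Circuit F V) :
    ∃ (n : ℕ) (S : Set (V → F)), Built n S ∧ n ≤ (G1 C).card ∧ ∀ v, lin C v ∈ S := by
  classical
  have key : ∀ t : ℕ, t ≤ C.nodes → ∃ (n : ℕ) (S : Set (V → F)), Built n S ∧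
      n ≤ ((G1 C).filter fun v : Fin C.nodes => (v : ℕ) < t).card ∧ ∀ v : Fin C.nodes, (v : ℕ) < t →
        lin C v ∈ S := by
    intro t
    induction t with
    | zero => exact fun _ => ⟨0, _, Built.base, Nat.zero_le _, fun v hv => absurd hv (by omega)⟩
    | succ t ih =>
      intro ht
      obtain ⟨n, S, hB, hn, hS⟩ := ih (by omega)
      set w : Fin C.nodes := ⟨t, by omega⟩ with hw
      have hcase : ∀ v : Fin C.nodes, (v : ℕ) < t + 1 → (v : ℕ) < t ∨ v = w := by
        intro v hv
        by_cases h : (v : ℕ) < t
        · exact Or.inl h
        · refine Or.inr (Fin.ext ?_)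
          rw [hw]
          simp only
          omega
      have hle : ((G1 C).filter fun v : Fin C.nodes => (v : ℕ) < t).card ≤
          ((G1 C).filter fun v : Fin C.nodes => (v : ℕ) < t + 1).card := by
        refine card_le_card fun v hv => ?_
        rw [mem_filter] at hv ⊢
        exact ⟨hv.1, by omega⟩
      by_cases hmem : lin C w ∈ S
      · refine ⟨n, S, hB, hn.trans hle, fun v hv => ?_⟩
        rcases hcase v hv with h | h
        · exact hS v h
        · rw [h]
          exact hmem
      · have hcost : Costly C w := by
          cases hg : C.gate w with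
          | var z =>
            refine absurd ?_ hmem
            rw [lin_var hg]
            exact hB.single_mem z
          | const c =>
            refine absurd ?_ hmem
            rw [lin_const hg]
            exact hB.zero_mem
          | add i j => exact Or.inl ⟨i, j, hg⟩
          | mul i j =>
            refine Or.inr ?_
            by_contra hns
            obtain ⟨k, c, hk, hp⟩ := scalar_gate hg hns
            apply hmem
            have e2 : lin C w = c • lin C k := by
              funext x
              simp only [lin, hp, D1_mul, D1_C, MvPolynomial.constantCoeff_C, Pi.smul_apply,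
                smul_eq_mul]
              ring
            rw [e2]
            exact hB.smul_mem (hS k hk) c
        have hgate : IsGate C w := by
          rcases hcost with ⟨i, j, hg⟩ | ⟨i, j, hg, _⟩
          · exact Or.inl ⟨i, j, hg⟩
          · exact Or.inr ⟨i, j, hg⟩
        have h0 : lin C w ≠ 0 := by
          intro h
          apply hmem
          rw [h]
          exact hB.zero_mem
        obtain ⟨i, j, hi, hj, α, β, hl⟩ := lin_gate hgate
        have hi' : (i : ℕ) < t := hi
        have hj' : (j : ℕ) < t := hj
        refine ⟨n + 1, _, hB.step (hB.smul_mem (hS i hi') α) (hB.smul_mem (hS j hj') β), ?_, ?_⟩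
        · have hlt : ((G1 C).filter fun v : Fin C.nodes => (v : ℕ) < t).card <
              ((G1 C).filter fun v : Fin C.nodes => (v : ℕ) < t + 1).card := by
            refine card_lt_card ?_
            rw [Finset.ssubset_iff_of_subset]
            · refine ⟨w, ?_, ?_⟩
              · rw [mem_filter]
                refine ⟨?_, ?_⟩
                · exact mem_G1.2 ⟨hcost, h0⟩
                · rw [hw]
                  simp only
                  omega
              · rw [mem_filter]
                rintro ⟨_, h⟩
                rw [hw] at h
                simp only at h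
                omega
            · intro v hv
              rw [mem_filter] at hv ⊢
              exact ⟨hv.1, by omega⟩
          omega
        · intro v hv
          rcases hcase v hv with h | h
          · exact Or.inl (hS v h)
          · rw [h, hl]
            exact Or.inr ⟨1, (one_smul _ _).symm⟩
  obtain ⟨n, S, hB, hn, hS⟩ := key C.nodes le_rfl
  exact ⟨n, S, hB, hn.trans (card_le_card (filter_subset _ _)), fun v => hS v v.2⟩

end Pool.Agent.Helper24.MM
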