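import Pool.Agent.Helper24.MM.Backward
import Pool.Agent.Helper24.MM.Asymp

set_option autoImplicit false

/-!
# The three parts of the bound
-/

namespace Pool.Agent.Helper24.MM

open Finset Pool.Agent.H88R3.MM Pool.Agent.H522R2 Pool.Agent.H522R2.Circuit Pool.Agent.W946.Kos
open Pool.Agent.W946.Sz

section homogeneous

variable {F V : Type*} [Field F]

theorem lin_of_HNS {C : Circuit F V} {v : Fin C.nodes} (h : HNS C v) : lin C v = 0 := by
  obtain ⟨hns, k, hk⟩ := h
  obtain ⟨i, j, hg, h1, h2⟩ := hns
  rw [poly_mul hg] at hk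
  have e1 : MvPolynomial.constantCoeff (C.poly (C.up v i)) = 0 := by
    by_contra h3
    refine h1 _ (eq_C_of_homogeneous hk ?_ h3)
    intro h4
    refine h2 0 ?_
    rw [h4, map_zero]
  have e2 : MvPolynomial.constantCoeff (C.poly (C.up v j)) = 0 := by
    by_contra h3
    rw [mul_comm] at hk
    refine h2 _ (eq_C_of_homogeneous hk ?_ h3)
    intro h4
    refine h1 0 ?_
    rw [h4, map_zero]
  funext x
  simp only [lin, poly_mul hg, D1_mul, e1, e2, Pi.zero_apply]
  ring

theorem hom_lin_qd {C : Circuit F V} {v : Fin C.nodes} (h : ∃ k, (C.poly v).IsHomogeneous k)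
    (h1 : lin C v ≠ 0) : qd C v = 0 := by
  obtain ⟨k, hk⟩ := h
  obtain ⟨x, hx⟩ := Function.ne_iff.1 h1
  have hk1 : k ≤ 1 := by
    by_contra hcon
    apply hx
    have h2 : (MvPolynomial.pderiv x (C.poly v)).IsHomogeneous (k - 1) := hk.pderiv
    simp only [lin, D1, Pi.zero_apply]
    rw [MvPolynomial.constantCoeff_eq]
    refine h2.coeff_eq_zero ?_
    rw [map_zero]
    omega
  funext y z
  have h2 : ∀ w, (MvPolynomial.pderiv w (C.poly v)).IsHomogeneous 0 := by
    intro w
    have h3 : (MvPolynomial.pderiv w (C.poly v)).IsHomogeneous (k - 1) := hk.pderiv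
    rwa [show k - 1 = 0 by omega] at h3
  simp only [qd, Pi.zero_apply]
  unfold D2
  have h3 : ∀ w u, MvPolynomial.pderiv u (MvPolynomial.pderiv w (C.poly v)) = 0 := by
    intro w u
    have h4 := MvPolynomial.totalDegree_eq_zero_iff_eq_C.1
      ((MvPolynomial.totalDegree_zero_iff_isHomogeneous _).2 (h2 w))
    rw [h4, MvPolynomial.pderiv_C]
  rw [h3, map_zero]

end homogeneous

section rank

/-- the asymptotic form of the bound of the library for quadratic algorithms -/
theorem three_of_core {ε : ℝ} (hε : 0 < ε) : ∃ m₀ : ℕ, ∀ m R : ℕ, m₀ ≤ m →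
    (∀ q p : ℕ, q * (p + 1) ≤ m →
      m ^ 2 + (2 * p + 1) * m * q ≤ R + q * (p + 1) * (2 * p + 1).choose p) →
    (3 - ε) * (m : ℝ) ^ 2 ≤ R := by
  obtain ⟨p, hp⟩ := exists_nat_gt (2 / ε)
  obtain ⟨m₀, hm₀⟩ := exists_nat_gt ((2 * (p : ℝ) + 4 ^ p) * (2 / ε))
  refine ⟨m₀, fun m R hm hR => ?_⟩
  have h1 : (3 - 1 / ((p : ℝ) + 1)) * (m : ℝ) ^ 2 ≤ R + (2 * p + 4 ^ p) * m := by
    have hdm := Nat.div_add_mod m (p + 1)
    have hmod := Nat.mod_lt m (show 0 < p + 1 by omega)
    set q := m / (p + 1) with hq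
    have hqp : q * (p + 1) ≤ m := Nat.div_mul_le_self m (p + 1)
    have h1 := hR q p hqp
    have h2 : q * (p + 1) * (2 * p + 1).choose p ≤ m * 4 ^ p :=
      Nat.mul_le_mul hqp (Nat.choose_middle_le_pow p)
    have h3 : m ^ 2 + (2 * p + 1) * m * q ≤ R + m * 4 ^ p := by omega
    have h4 : m ≤ q * (p + 1) + p := by
      have : (p + 1) * q = q * (p + 1) := mul_comm _ _
      omega
    have h5 : (m : ℝ) ^ 2 + (2 * p + 1) * m * q ≤ R + m * 4 ^ p := by
      exact_mod_cast h3
    have h6 : (m : ℝ) ≤ q * (p + 1) + p := by exact_mod_cast h4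
    have hp : (0 : ℝ) < (p : ℝ) + 1 := by positivity
    have hm0 : (0 : ℝ) ≤ m := by positivity
    have h7 : (2 - 1 / ((p : ℝ) + 1)) * (m : ℝ) ^ 2 ≤ (2 * p + 1) * m * q + 2 * p * m := by
      have e1 : (2 - 1 / ((p : ℝ) + 1)) * (m : ℝ) ^ 2 = ((2 * p + 1) * m ^ 2) / (p + 1) := by
        field_simp
        ring
      rw [e1, div_le_iff₀ hp]
      have h8 : (2 * (p : ℝ) + 1) * m * m ≤ (2 * p + 1) * m * (q * (p + 1) + p) :=
        mul_le_mul_of_nonneg_left h6 (by positivity)
      have hp0 : (0 : ℝ) ≤ p := by positivity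
      nlinarith [mul_nonneg hp0 hm0]
    linarith
  have hm1 : (m₀ : ℝ) ≤ m := by exact_mod_cast hm
  have h2 : 1 / ((p : ℝ) + 1) ≤ ε / 2 := by
    rw [div_le_div_iff₀ (by positivity) (by norm_num)]
    rw [div_lt_iff₀ hε] at hp
    nlinarith
  have h3 : (2 * (p : ℝ) + 4 ^ p) ≤ (ε / 2) * m := by
    have h4 : (2 * (p : ℝ) + 4 ^ p) * (2 / ε) ≤ m := (hm₀.le).trans hm1
    have h5 : (ε / 2) * ((2 * (p : ℝ) + 4 ^ p) * (2 / ε)) = (2 * (p : ℝ) + 4 ^ p) := by
      field_simp
    rw [← h5]
    exact mul_le_mul_of_nonneg_left h4 (by positivity)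
  have hm0 : (0 : ℝ) ≤ m := by positivity
  have h4 := mul_le_mul_of_nonneg_right h2 (sq_nonneg (m : ℝ))
  have h5 := mul_le_mul_of_nonneg_right h3 hm0
  nlinarith

end rank

section mm

variable {F : Type*} [Field F] {m : ℕ}

/-- the data of a transposed chain -/
structure Tr (C : Circuit F (Vars m)) (out : Fin m × Fin m → Fin C.nodes)
    (lam : Fin C.nodes → Fin m × Fin m → F) : Prop where
  hout : ∀ y, C.poly (out y) = entry F m y.1 y.2
  heq : ∀ y, qd C (out y) = ∑ v, lam v y • bil C v

/-- the nonscalar multiplications which matter -/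
abbrev LL (C : Circuit F (Vars m)) (lam : Fin C.nodes → Fin m × Fin m → F) : Type :=
  {v : Fin C.nodes // C.IsNonscalar v ∧ lam v ≠ 0}

variable {C : Circuit F (Vars m)} {out : Fin m × Fin m → Fin C.nodes}
  {lam : Fin C.nodes → Fin m × Fin m → F}

open Classical in
theorem Tr.eq (T : Tr C out lam) (y : Fin m × Fin m) (a b : Vars m) :
    D2 a b (entry F m y.1 y.2) = ∑ g : LL C lam, lam g.1 y *
      (lin C (inp C g.1).1 a * lin C (inp C g.1).2 b +
        lin C (inp C g.1).1 b * lin C (inp C g.1).2 a) := by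
  have h1 := congrFun (congrFun (T.heq y) a) b
  simp only [qd, T.hout, Finset.sum_apply, Pi.smul_apply, smul_eq_mul] at h1
  rw [h1]
  have h2 : ∀ v : Fin C.nodes, ¬ (C.IsNonscalar v ∧ lam v ≠ 0) → lam v y * bil C v a b = 0 := by
    intro v hv
    by_cases h3 : C.IsNonscalar v
    · have h4 : lam v = 0 := by
        by_contra h5
        exact hv ⟨h3, h5⟩
      rw [h4, Pi.zero_apply, zero_mul]
    · unfold bil
      rw [if_neg h3, Pi.zero_apply, Pi.zero_apply, mul_zero]
  have h3 : ∑ v : Fin C.nodes, lam v y * bil C v a b =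
      ∑ v ∈ univ.filter (fun v => C.IsNonscalar v ∧ lam v ≠ 0), lam v y * bil C v a b := by
    symm
    refine sum_subset (subset_univ _) fun v _ hv => h2 v ?_
    rw [mem_filter] at hv
    exact fun h => hv ⟨mem_univ _, h⟩
  rw [h3, Finset.sum_subtype (p := fun v => C.IsNonscalar v ∧ lam v ≠ 0) _
    (fun v => by rw [mem_filter]; simp only [mem_univ, true_and])]
  refine sum_congr rfl fun g _ => ?_
  unfold bil
  rw [if_pos g.2.1]

open Classical in
/-- The bound for the number of the nonscalar multiplications which matter. -/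
theorem Tr.three (T : Tr C out lam) (q p : ℕ) (hqp : q * (p + 1) ≤ m) :
    m ^ 2 + (2 * p + 1) * m * q ≤
      Fintype.card (LL C lam) + q * (p + 1) * (2 * p + 1).choose p := by
  set f : F →+* AlgebraicClosure F := algebraMap F (AlgebraicClosure F) with hf
  refine core (K := AlgebraicClosure F) (L := LL C lam) (u := fun g x => f (lin C (inp C g.1).1 x))
    (v := fun g x => f (lin C (inp C g.1).2 x))
    (w := fun g => Matrix.of fun i j => f (lam g.1 (i, j))) (fun G => ?_) q p hqp
  ext x y
  rw [symM_expand, Matrix.sum_apply]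
  have h1 : ∀ i j, symM (Matrix.single i j (1 : AlgebraicClosure F)) x y =
      ∑ g : LL C lam, f (lam g.1 (i, j)) *
      (f (lin C (inp C g.1).1 x) * f (lin C (inp C g.1).2 y) +
        f (lin C (inp C g.1).1 y) * f (lin C (inp C g.1).2 x)) := by
    intro i j
    rw [← symM_map f, ← D2_entry, T.eq (i, j), map_sum]
    exact sum_congr rfl fun g _ => by simp only [map_mul, map_add]
  simp only [h1, mul_sum]
  have h2 : ∀ g : LL C lam,
      (pr G (Matrix.of fun i j => f (lam g.1 (i, j))) •
        (Matrix.vecMulVec (fun x => f (lin C (inp C g.1).1 x))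
            (fun x => f (lin C (inp C g.1).2 x)) +
          Matrix.vecMulVec (fun x => f (lin C (inp C g.1).2 x))
            (fun x => f (lin C (inp C g.1).1 x)))) x y =
      ∑ i, ∑ j, G i j * (f (lam g.1 (i, j)) *
        (f (lin C (inp C g.1).1 x) * f (lin C (inp C g.1).2 y) +
          f (lin C (inp C g.1).1 y) * f (lin C (inp C g.1).2 x))) := by
    intro g
    rw [Matrix.smul_apply, Matrix.add_apply, Matrix.vecMulVec_apply, Matrix.vecMulVec_apply,
      smul_eq_mul]
    unfold pr
    rw [sum_mul]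
    refine sum_congr rfl fun i _ => ?_
    rw [sum_mul]
    refine sum_congr rfl fun j _ => ?_
    rw [Matrix.of_apply]
    ring
  simp only [h2]
  have h3 : ∀ i : Fin m, (∑ j, ∑ g : LL C lam, G i j * (f (lam g.1 (i, j)) *
        (f (lin C (inp C g.1).1 x) * f (lin C (inp C g.1).2 y) +
          f (lin C (inp C g.1).1 y) * f (lin C (inp C g.1).2 x)))) =
      ∑ g : LL C lam, ∑ j, G i j * (f (lam g.1 (i, j)) *
        (f (lin C (inp C g.1).1 x) * f (lin C (inp C g.1).2 y) +
          f (lin C (inp C g.1).1 y) * f (lin C (inp C g.1).2 x))) :=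
    fun i => sum_comm
  rw [sum_congr rfl fun i _ => h3 i, sum_comm]

open Classical in
/-- The distance of the forward code. -/
theorem Tr.fdist (T : Tr C out lam) {X : Vars m → F} (hX : X ≠ 0) :
    ∃ Q : Finset (LL C lam × Bool), m ≤ 2 * Q.card ∧ ∀ l ∈ Q,
      dotProduct (lin C (if l.2 then (inp C l.1.1).1 else (inp C l.1.1).2)) X ≠ 0 := by
  set act : Finset (LL C lam) := univ.filter fun g =>
    dotProduct (lin C (inp C g.1).1) X ≠ 0 ∨ dotProduct (lin C (inp C g.1).2) X ≠ 0 with hact
  set vv : LL C lam → Vars m → F := fun g y =>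
    dotProduct (lin C (inp C g.1).1) X * lin C (inp C g.1).2 y +
      lin C (inp C g.1).1 y * dotProduct (lin C (inp C g.1).2) X with hvv
  set G : Finset (Vars m → F) := act.image vv with hG
  have hmem : ∀ i j, (fun y => ∑ x, X x * D2 x y (entry F m i j)) ∈
      Submodule.span F (G : Set (Vars m → F)) := by
    intro i j
    have h1 : (fun y => ∑ x, X x * D2 x y (entry F m i j)) =
        ∑ g : LL C lam, lam g.1 (i, j) • vv g := by
      funext y
      have h2 := T.eq (i, j)
      simp only at h2
      simp only [h2, mul_sum, Finset.sum_apply, Pi.smul_apply, smul_eq_mul]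
      rw [sum_comm]
      refine sum_congr rfl fun g _ => ?_
      simp only [hvv, dotProduct, sum_mul, mul_sum, mul_add, ← sum_add_distrib]
      exact sum_congr rfl fun x _ => by ring
    rw [h1]
    refine Submodule.sum_mem _ fun g _ => Submodule.smul_mem _ _ ?_
    by_cases hg : g ∈ act
    · refine Submodule.subset_span ?_
      rw [hG, coe_image]
      exact ⟨g, hg, rfl⟩
    · rw [hact, mem_filter] at hg
      push Not at hg
      obtain ⟨h2, h3⟩ := hg (mem_univ _)
      have h4 : vv g = 0 := by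
        funext y
        simp only [hvv, h2, h3, zero_mul, mul_zero, add_zero, Pi.zero_apply]
      rw [h4]
      exact Submodule.zero_mem _
  have hcard : m ≤ act.card := by
    obtain ⟨z, hz⟩ := Function.ne_iff.1 hX
    rw [Pi.zero_apply] at hz
    refine le_trans ?_ (card_image_le (s := act) (f := vv))
    rw [← hG]
    have hm : Fintype.card (Fin m) = m := Fintype.card_fin m
    rcases z with ⟨i, k⟩ | ⟨k, j⟩
    · refine hm.symm.le.trans (card_le_of_diag (F := F)
        (fun j : Fin m => (fun y => ∑ x, X x * D2 x y (entry F m i j) : Vars m → F))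
        (fun l => LinearMap.proj (Sum.inr (k, l))) hz (fun j l => ?_) G fun j => hmem i j)
      rw [LinearMap.proj_apply]
      exact sum_entry_inr X i j k l
    · refine hm.symm.le.trans (card_le_of_diag (F := F)
        (fun i : Fin m => (fun y => ∑ x, X x * D2 x y (entry F m i j) : Vars m → F))
        (fun l => LinearMap.proj (Sum.inl (l, k))) hz (fun i l => ?_) G fun i => hmem i j)
      rw [LinearMap.proj_apply]
      exact sum_entry_inl X i j k l
  refine ⟨act.image fun g => (g, decide (dotProduct (lin C (inp C g.1).1) X ≠ 0)), ?_, ?_⟩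
  · rw [card_image_of_injective _ (fun a b h => (Prod.ext_iff.1 h).1)]
    omega
  · intro l hl
    rw [mem_image] at hl
    obtain ⟨g, hg, rfl⟩ := hl
    rw [hact, mem_filter] at hg
    by_cases h : dotProduct (lin C (inp C g.1).1) X ≠ 0
    · simp only [h, ne_eq, not_false_eq_true, decide_true, if_true]
    · rcases hg.2 with h1 | h1
      · exact absurd h1 h
      · simpa [h] using h1

open Classical in
/-- The distance of the transposed code. -/
theorem Tr.bdist (T : Tr C out lam) {Z : Fin m × Fin m → F} (hZ : Z ≠ 0) :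
    ∃ Q : Finset (LL C lam), m ≤ 2 * Q.card ∧ ∀ l ∈ Q, dotProduct (lam l.1) Z ≠ 0 := by
  set Q : Finset (LL C lam) := univ.filter fun l => dotProduct (lam l.1) Z ≠ 0 with hQ
  refine ⟨Q, ?_, fun l hl => (mem_filter.1 hl).2⟩
  obtain ⟨⟨i, j⟩, hz⟩ := Function.ne_iff.1 hZ
  rw [Pi.zero_apply] at hz
  set G : Finset (Vars m → F) := Q.image (fun g => lin C (inp C g.1).1) ∪
    Q.image (fun g => lin C (inp C g.1).2) with hG
  have hGcard : G.card ≤ 2 * Q.card := by
    refine (card_union_le _ _).trans ?_
    have h1 := card_image_le (s := Q) (f := fun g : LL C lam => lin C (inp C g.1).1)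
    have h2 := card_image_le (s := Q) (f := fun g : LL C lam => lin C (inp C g.1).2)
    omega
  refine le_trans ?_ hGcard
  have hm : Fintype.card (Fin m) = m := Fintype.card_fin m
  refine hm.symm.le.trans (card_le_of_diag (F := F)
    (fun k : Fin m => (fun x => ∑ y : Fin m × Fin m, Z y *
      D2 (Sum.inl (i, k)) x (entry F m y.1 y.2) : Vars m → F))
    (fun l => LinearMap.proj (Sum.inr (l, j))) hz (fun k l => ?_) G fun k => ?_)
  · rw [LinearMap.proj_apply]
    simp only [D2_entry]
    rw [Finset.sum_eq_single (i, j)]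
    · simp only [symM, Matrix.of_apply, Matrix.single_apply, and_self, if_true]
      by_cases h : k = l
      · rw [if_pos h, if_pos h.symm, mul_one]
      · rw [if_neg h, if_neg (fun h' => h h'.symm), mul_zero]
    · rintro ⟨a, b⟩ _ hne
      simp only [symM, Matrix.of_apply, Matrix.single_apply]
      by_cases h2 : k = l
      · rw [if_pos h2, if_neg, mul_zero]
        rintro ⟨h3, h4⟩
        exact hne (by rw [h3, h4])
      · rw [if_neg h2, mul_zero]
    · intro h
      exact absurd (mem_univ _) h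
  · have h1 : (fun x => ∑ y : Fin m × Fin m, Z y *
        D2 (Sum.inl (i, k)) x (entry F m y.1 y.2) : Vars m → F) =
        ∑ g : LL C lam, dotProduct (lam g.1) Z •
          (lin C (inp C g.1).1 (Sum.inl (i, k)) • lin C (inp C g.1).2 +
            lin C (inp C g.1).2 (Sum.inl (i, k)) • lin C (inp C g.1).1) := by
      funext x
      simp only [T.eq, mul_sum, Finset.sum_apply, Pi.smul_apply, Pi.add_apply, smul_eq_mul]
      rw [sum_comm]
      refine sum_congr rfl fun g _ => ?_
      simp only [dotProduct, sum_mul]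
      exact sum_congr rfl fun y _ => by ring
    rw [h1]
    refine Submodule.sum_mem _ fun g _ => ?_
    by_cases hg : g ∈ Q
    · refine Submodule.smul_mem _ _ (Submodule.add_mem _ (Submodule.smul_mem _ _ ?_)
        (Submodule.smul_mem _ _ ?_))
      · refine Submodule.subset_span ?_
        rw [hG, coe_union, coe_image, coe_image]
        exact Or.inr ⟨g, hg, rfl⟩
      · refine Submodule.subset_span ?_
        rw [hG, coe_union, coe_image, coe_image]
        exact Or.inl ⟨g, hg, rfl⟩
    · rw [hQ, mem_filter] at hg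
      push Not at hg
      rw [hg (mem_univ _), zero_smul]
      exact Submodule.zero_mem _

end mm

end Pool.Agent.Helper24.MM
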